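import Pool.Agent.H8.DE.Targets

set_option autoImplicit false

namespace Pool.Agent.H99.DE

open Pool.Agent.H69.Sp Pool.Agent.H69.VR Pool.Agent.H8.VR Pool.Agent.H8.JS Pool.Agent.H8.MC
  Pool.Agent.H8.DE

theorem foldr_lt_ci (N : ℕ) : ∀ l : List ℕ, (∀ x ∈ l, x < N) →
    l.foldr (fun x c => x + N * c) 0 < N ^ l.length
  | [], _ => by simp
  | x :: l, h => by
      have h1 := foldr_lt_ci N l (fun y hy => h y (List.mem_cons_of_mem _ hy))
      have hx : x < N := h x List.mem_cons_self
      rw [List.foldr_cons, List.length_cons, pow_succ]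
      have h2 : l.foldr (fun x c => x + N * c) 0 + 1 ≤ N ^ l.length := h1
      have h3 : N * (l.foldr (fun x c => x + N * c) 0 + 1) ≤ N * N ^ l.length :=
        Nat.mul_le_mul_left N h2
      have h4 : N * (l.foldr (fun x c => x + N * c) 0 + 1)
          = N * l.foldr (fun x c => x + N * c) 0 + N := by ring
      have h5 : N ^ l.length * N = N * N ^ l.length := by ring
      omega

theorem foldr_inj_ci (N : ℕ) : ∀ l l' : List ℕ, (∀ x ∈ l, x < N) → (∀ x ∈ l', x < N) →
    l.length = l'.length →
    l.foldr (fun x c => x + N * c) 0 = l'.foldr (fun x c => x + N * c) 0 → l = l'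
  | [], [], _, _, _, _ => rfl
  | [], y :: l', _, _, h, _ => by simp at h
  | x :: l, [], _, _, h, _ => by simp at h
  | x :: l, y :: l', h, h', hl, he => by
      have hx : x < N := h x List.mem_cons_self
      have hy : y < N := h' y List.mem_cons_self
      rw [List.foldr_cons, List.foldr_cons] at he
      have h1 := congrArg (fun z => z % N) he
      simp only [Nat.add_mul_mod_self_left, Nat.mod_eq_of_lt hx, Nat.mod_eq_of_lt hy] at h1
      subst h1
      have h2 : N * l.foldr (fun x c => x + N * c) 0 = N * l'.foldr (fun x c => x + N * c) 0 := by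
        omega
      have h3 := Nat.eq_of_mul_eq_mul_left (by omega : 0 < N) h2
      rw [foldr_inj_ci N l l' (fun z hz => h z (List.mem_cons_of_mem _ hz))
        (fun z hz => h' z (List.mem_cons_of_mem _ hz)) (by simpa using hl) h3]

theorem pf_CI : D_CI := by
  constructor
  · intro R N i l hi hl
    have h1 := foldr_lt_ci N l hl
    unfold cd
    have h2 : R * (l.foldr (fun x c => x + N * c) 0 + 1) ≤ R * N ^ l.length :=
      Nat.mul_le_mul_left R h1
    have h3 : R * (l.foldr (fun x c => x + N * c) 0 + 1)
        = R * l.foldr (fun x c => x + N * c) 0 + R := by ring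
    omega
  · intro R N i i' l l' hi hi' hl hl' he hlen
    unfold cd at he
    have h1 := congrArg (fun z => z % R) he
    simp only [Nat.add_mul_mod_self_left, Nat.mod_eq_of_lt hi, Nat.mod_eq_of_lt hi'] at h1
    subst h1
    refine ⟨rfl, foldr_inj_ci N l l' hl hl' (hlen rfl) ?_⟩
    have h2 : R * l.foldr (fun x c => x + N * c) 0 = R * l'.foldr (fun x c => x + N * c) 0 := by
      omega
    exact Nat.eq_of_mul_eq_mul_left (by omega : 0 < R) h2

end Pool.Agent.H99.DE
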