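import Pool.Agent.H8.DE.Targets

set_option autoImplicit false

namespace Pool.Agent.H99.DE

open Pool.Agent.H69.Sp Pool.Agent.H69.VR Pool.Agent.H8.VR Pool.Agent.H8.JS Pool.Agent.H8.MC
  Pool.Agent.H8.DE

/-- an inflationary operator on tables with bounded support becomes stationary -/
theorem stat_fx (M : ℕ) (g : (ℕ → Bool) → ℕ → Bool)
    (hinf : ∀ tb p, tb p = true → g tb p = true)
    (hsup : ∀ tb, (∀ p, tb p = true → p < M) → ∀ p, g tb p = true → p < M) :
    ∀ T, M < T → g (g^[T] fun _ => false) = g^[T] fun _ => false := by
  classical
  have hs : ∀ t, ∀ p, (g^[t] fun _ => false) p = true → p < M := by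
    intro t
    induction t with
    | zero => intro p hp; simp at hp
    | succ t ih =>
        intro p hp
        rw [Function.iterate_succ_apply'] at hp
        exact hsup _ ih p hp
  have key : ∀ t, (g (g^[t] fun _ => false) = g^[t] fun _ => false) ∨
      t ≤ ((Finset.range M).filter (fun p => (g^[t] fun _ => false) p = true)).card := by
    intro t
    induction t with
    | zero => right; exact Nat.zero_le _
    | succ t ih =>
        rw [Function.iterate_succ_apply']
        rcases ih with h | h
        · left
          rw [h, h]
        · by_cases he : g (g^[t] fun _ => false) = g^[t] fun _ => false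
          · left
            rw [he, he]
          · right
            have hlt : ((Finset.range M).filter (fun p => (g^[t] fun _ => false) p = true)).card
                < ((Finset.range M).filter
                  (fun p => g (g^[t] fun _ => false) p = true)).card := by
              apply Finset.card_lt_card
              rw [Finset.ssubset_iff_of_subset]
              · by_contra hcon
                apply he
                funext p
                by_cases h1 : (g^[t] fun _ => false) p = true
                · rw [h1]
                  exact hinf _ p h1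
                · by_cases h2 : g (g^[t] fun _ => false) p = true
                  · exfalso
                    apply hcon
                    refine ⟨p, ?_, ?_⟩
                    · rw [Finset.mem_filter]
                      exact ⟨Finset.mem_range.2 (hsup _ (hs t) p h2), h2⟩
                    · rw [Finset.mem_filter]
                      exact fun h3 => h1 h3.2
                  · rw [Bool.not_eq_true] at h1 h2
                    rw [h1, h2]
              · intro p hp
                rw [Finset.mem_filter] at hp ⊢
                exact ⟨hp.1, hinf _ p hp.2⟩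
            omega
  intro T hT
  rcases key T with h | h
  · exact h
  · exfalso
    have := (Finset.card_filter_le (Finset.range M)
      (fun p => (g^[T] fun _ => false) p = true))
    rw [Finset.card_range] at this
    omega

theorem foldl_inf_fx {X : Type} (f : (ℕ → Bool) → X → ℕ → Bool)
    (hf : ∀ tb x p, tb p = true → f tb x p = true) :
    ∀ (ls : List X) (tb : ℕ → Bool) (p : ℕ), tb p = true → ls.foldl f tb p = true
  | [], _, _, h => h
  | x :: ls, tb, p, h => foldl_inf_fx f hf ls (f tb x) p (hf tb x p h)

theorem foldl_stat_fx {X : Type} (f : (ℕ → Bool) → X → ℕ → Bool)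
    (hf : ∀ tb x p, tb p = true → f tb x p = true) :
    ∀ (ls : List X) (tb : ℕ → Bool), ls.foldl f tb = tb → ∀ x ∈ ls, f tb x = tb
  | [], _, _ => by simp
  | x :: ls, tb, h => by
      rw [List.foldl_cons] at h
      have h1 : f tb x = tb := by
        funext p
        by_cases hp : tb p = true
        · rw [hp]
          exact hf tb x p hp
        · by_cases hq : f tb x p = true
          · exfalso
            apply hp
            rw [← h]
            exact foldl_inf_fx f hf ls _ p hq
          · rw [Bool.not_eq_true] at hp hq
            rw [hp, hq]
      rw [h1] at h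
      intro y hy
      rcases List.mem_cons.1 hy with rfl | hy
      · exact h1
      · exact foldl_stat_fx f hf ls tb h y hy

theorem pf_FX (hCI : D_CI) : D_FX := by
  classical
  intro R ar Φ N n ls Es hN hls hEs T hT
  set F : (ℕ → Bool) → ℕ → Bool := fun tb => ls.foldl (ad R ar Φ N n) tb with hF
  have hadinf : ∀ (tb : ℕ → Bool) (x : ℕ × List ℕ) (p : ℕ), tb p = true →
      ad R ar Φ N n tb x p = true := by
    intro tb x p hp
    unfold ad
    split_ifs with h
    · by_cases hpx : p = cd R N x.1 x.2
      · rw [hpx, Function.update_self]
      · rw [Function.update_of_ne hpx]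
        exact hp
    · exact hp
  have hpos : ∀ x ∈ ls, cd R N x.1 x.2 < R * N ^ (∑ i ∈ Finset.range R, ar i) := by
    intro x hx
    obtain ⟨h1, h2, h3⟩ := (hls x).1 hx
    refine lt_of_lt_of_le (hCI.1 R N x.1 x.2 h1 h3) ?_
    apply Nat.mul_le_mul_left
    apply Nat.pow_le_pow_right hN
    rw [h2]
    exact Finset.single_le_sum (f := ar) (fun i _ => Nat.zero_le _) (Finset.mem_range.2 h1)
  have hFinf : ∀ (tb : ℕ → Bool) (p : ℕ), tb p = true → F tb p = true := by
    intro tb p hp
    exact foldl_inf_fx _ hadinf ls tb p hp
  have hsup0 : ∀ (l : List (ℕ × List ℕ)), (∀ x ∈ l, x ∈ ls) → ∀ tb : ℕ → Bool,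
      (∀ p, tb p = true → p < R * N ^ (∑ i ∈ Finset.range R, ar i)) →
      ∀ p, l.foldl (ad R ar Φ N n) tb p = true →
        p < R * N ^ (∑ i ∈ Finset.range R, ar i) := by
    intro l
    induction l with
    | nil => intro _ tb h p hp; exact h p hp
    | cons x l ih =>
        intro hl tb h p hp
        rw [List.foldl_cons] at hp
        refine ih (fun y hy => hl y (List.mem_cons_of_mem _ hy)) _ ?_ p hp
        intro q hq
        unfold ad at hq
        split_ifs at hq with hst
        · by_cases hqx : q = cd R N x.1 x.2
          · rw [hqx]
            exact hpos x (hl x List.mem_cons_self)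
          · rw [Function.update_of_ne hqx] at hq
            exact h q hq
        · exact h q hq
  have hstat := stat_fx (R * N ^ (∑ i ∈ Finset.range R, ar i)) F hFinf
    (fun tb h p hp => hsup0 ls (fun _ h => h) tb h p hp) T hT
  -- soundness
  have hsound0 : ∀ (l : List (ℕ × List ℕ)), (∀ x ∈ l, x ∈ ls) → ∀ tb : ℕ → Bool,
      (∀ i l', ET R ar N tb i l' → Es i l') →
      ∀ i l', ET R ar N (l.foldl (ad R ar Φ N n) tb) i l' → Es i l' := by
    intro l
    induction l with
    | nil => intro _ tb h i l' hp; exact h i l' hp
    | cons x l ih =>
        intro hl tb h i l' hp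
        rw [List.foldl_cons] at hp
        refine ih (fun y hy => hl y (List.mem_cons_of_mem _ hy)) _ ?_ i l' hp
        intro i₁ l₁ h₁
        by_cases hst : St1 N (ET R ar N tb) (Φ x.1) (vl x.2 n)
        · have had : ad R ar Φ N n tb x = Function.update tb (cd R N x.1 x.2) true := by
            unfold ad
            rw [if_pos hst]
          rw [had] at h₁
          obtain ⟨a1, a2, a3, a4⟩ := h₁
          obtain ⟨b1, b2, b3⟩ := (hls x).1 (hl x List.mem_cons_self)
          by_cases he : cd R N i₁ l₁ = cd R N x.1 x.2
          · obtain ⟨e1, e2⟩ := hCI.2 R N i₁ x.1 l₁ x.2 a1 b1 a3 b3 he (by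
              intro e
              rw [a2, b2, e])
            rw [e1, e2]
            exact hEs _ h x.1 b1 x.2 b2 b3 hst
          · rw [Function.update_of_ne he] at a4
            exact h i₁ l₁ ⟨a1, a2, a3, a4⟩
        · have had : ad R ar Φ N n tb x = tb := by
            unfold ad
            rw [if_neg hst]
          rw [had] at h₁
          exact h i₁ l₁ h₁
  have hsound : ∀ t, ∀ i l, ET R ar N (F^[t] fun _ => false) i l → Es i l := by
    intro t
    induction t with
    | zero =>
        intro i l h
        have h4 := h.2.2.2
        simp at h4
    | succ t ih =>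
        rw [Function.iterate_succ_apply']
        exact hsound0 ls (fun _ h => h) _ ih
  refine ⟨hsound T, ?_⟩
  intro i hi l hl hlN hst
  have hmem : (i, l) ∈ ls := (hls (i, l)).2 ⟨hi, hl, hlN⟩
  have h1 := foldl_stat_fx (ad R ar Φ N n) hadinf ls (F^[T] fun _ => false) hstat (i, l) hmem
  refine ⟨hi, hl, hlN, ?_⟩
  have h2 : ad R ar Φ N n (F^[T] fun _ => false) (i, l)
      = Function.update (F^[T] fun _ => false) (cd R N i l) true := by
    unfold ad
    rw [if_pos hst]
  rw [← h1, h2, Function.update_self]

end Pool.Agent.H99.DE
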